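import Pool.Agent.MP_4b405e_nt.H17.Main
import Pool.Agent.MP_4b405e_nt.H19.Final

namespace Pool.Agent.Results.MP_4b405e_nt.BeyondKatzTao

/-- There is `k` such that every set in `ℝ^n` with a `k`-term progression of each common
difference in the unit cube needs at least `c δ ^ (-n / 1.67253)` sets of diameter at most `δ`
to be covered. -/
theorem result :
    ∃ k : ℕ, ∀ n : ℕ, ∃ c : ℝ, 0 < c ∧ ∀ B : Set (EuclideanSpace ℝ (Fin n)),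
      (∀ r : EuclideanSpace ℝ (Fin n), (∀ i, r i ∈ Set.Icc (0 : ℝ) 1) →
        ∃ a : EuclideanSpace ℝ (Fin n), ∀ j : ℕ, j < k → a + (j : ℝ) • r ∈ B) →
      ∀ δ : ℝ, 0 < δ → ∀ 𝒰 : Finset (Set (EuclideanSpace ℝ (Fin n))),
        (∀ U ∈ 𝒰, ∀ x ∈ U, ∀ y ∈ U, dist x y ≤ δ) → B ⊆ (⋃ U ∈ 𝒰, U) →
        c * δ ^ (-((n : ℝ) / (167253 / 100000))) ≤ (𝒰.card : ℝ) := by
  obtain ⟨k, -, hk⟩ := Pool.Agent.MP_4b405e_nt.H17.sdfin
  exact Pool.Agent.MP_4b405e_nt.H19.ap_final (by norm_num) one_pos ⟨k, hk⟩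

end Pool.Agent.Results.MP_4b405e_nt.BeyondKatzTao
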