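import Pool.Agent.MP_4b405e_nt.H6.All
import Pool.Agent.MP_4b405e_nt.H6.Cover

namespace Pool.Agent.Results.MP_4b405e_nt.PerfectSlopes

/-- The sum-difference inequality at scale `δ` with loss `δ ^ (-ε)`, for every set of slopes
that is uniformly perfect down to the scale `δ`. -/
theorem result (n : ℕ) (c ε : ℝ) (hc : 0 < c) (hε : 0 < ε) :
    ∃ C : ℝ, ∀ (δ : ℝ) (T : Set ℝ) (R : Finset (EuclideanSpace ℝ (Fin n)))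
      (a : EuclideanSpace ℝ (Fin n) → EuclideanSpace ℝ (Fin n)) (K : ℕ),
      0 < δ → δ ≤ 1 → T.Nonempty → T ⊆ Set.Icc 0 1 →
      (∀ t ∈ T, ∀ ρ : ℝ, δ ≤ ρ → ρ ≤ c → ∃ s ∈ T, c * ρ ≤ |s - t| ∧ |s - t| ≤ ρ) →
      (∀ r ∈ R, ∀ i, r i ∈ Set.Icc (0 : ℝ) 1) →
      (∀ r ∈ R, ∀ r' ∈ R, r ≠ r' → δ ≤ dist r r') →
      (∀ t ∈ T, ∃ 𝒰 : Finset (Set (EuclideanSpace ℝ (Fin n))), 𝒰.card ≤ K ∧
        (∀ U ∈ 𝒰, ∀ x ∈ U, ∀ y ∈ U, dist x y ≤ δ) ∧ ∀ r ∈ R, ∃ U ∈ 𝒰, a r + t • r ∈ U) →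
      (R.card : ℝ) ≤ C * δ ^ (-ε) * K :=
  Pool.Agent.MP_5168f5_an.QA.Perf.cover Pool.Agent.MP_5168f5_an.QA.Perf.noSl n hc hε

end Pool.Agent.Results.MP_4b405e_nt.PerfectSlopes
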