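import Pool.Agent.MP_4b405e_nt.H60.Path
import Pool.Agent.MP_4b405e_nt.H60.Low

namespace Pool.Agent.Results.MP_4b405e_nt.RationalComplexity

open Pool.Agent.MP_4b405e_nt
open scoped Classical

/-- `s = P(r) / Q(r)` with integer polynomials `P, Q` of total degree at most `D` and coefficients
of size at most `2 ^ D`. -/
def HasRep {K : Type} [Field K] {k : ℕ} (r : Fin k → K) (s : K) (D : ℕ) : Prop :=
  ∃ P Q : MvPolynomial (Fin k) ℤ, P.totalDegree ≤ D ∧ Q.totalDegree ≤ D ∧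
    (∀ m, |P.coeff m| ≤ 2 ^ D) ∧ (∀ m, |Q.coeff m| ≤ 2 ^ D) ∧ MvPolynomial.aeval r Q ≠ 0 ∧
    s = MvPolynomial.aeval r P / MvPolynomial.aeval r Q

/-- The sum-difference exponent of the slopes `0, ∞, 1, r 0, …, r (k-1)` and output slope `s`:
the infimum of all `β` such that every finite `G ⊆ V × V` on which `x`, `y`, `x + y` and all
`x + r i • y` take at most `N` values has at most `N ^ β` values of `x + s • y`. -/
noncomputable def SD {K : Type} [Field K] (V : Type) [AddCommGroup V] [Module K V] {k : ℕ}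
    (r : Fin k → K) (s : K) : ℝ :=
  sInf {β : ℝ | ∀ (G : Finset (V × V)) (N : ℕ), (G.image fun g => g.1).card ≤ N →
    (G.image fun g => g.2).card ≤ N → (G.image fun g => g.1 + g.2).card ≤ N →
    (∀ i, (G.image fun g => g.1 + r i • g.2).card ≤ N) →
    ((G.image fun g => g.1 + s • g.2).card : ℝ) ≤ (N : ℝ) ^ β}

/-- With `D` the rational complexity of `s` over `r`, the exponent is `2 - Θ_k(1 / D)`. -/
theorem result (K V : Type) [Field K] [AddCommGroup V] [Module K V] [Nontrivial V] (k : ℕ)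
    (r : Fin k → K) (hr : ∀ i, r i ≠ 0) (s : K) (D : ℕ)
    (hD : IsLeast {E : ℕ | 1 ≤ E ∧ HasRep r s E} D) :
    2 - 12 * ((k : ℝ) + 1) ^ 2 / D ≤ SD V r s ∧
      SD V r s ≤ 2 - 1 / (2100 * ((k : ℝ) + 1) ^ 2 * D) := by
  obtain ⟨⟨h1, P, Q, dP, dQ, cP, cQ, hQ, hs⟩, hmin⟩ := hD
  have up := H60.upper (V := V) h1 hr dP dQ cP cQ hQ hs
  obtain ⟨v, hv⟩ := exists_ne (0 : V)
  have one : ∀ β : ℝ, (∀ (G : Finset (V × V)) (N : ℕ), (G.image fun g => g.1).card ≤ N →
      (G.image fun g => g.2).card ≤ N → (G.image fun g => g.1 + g.2).card ≤ N →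
      (∀ i, (G.image fun g => g.1 + r i • g.2).card ≤ N) →
      ((G.image fun g => g.1 + s • g.2).card : ℝ) ≤ (N : ℝ) ^ β) → 1 ≤ β := by
    intro β hβ
    have c2 : ∀ π : V × V → V, (({(0, 0), (v, 0)} : Finset (V × V)).image π).card ≤ 2 :=
      fun π => Finset.card_image_le.trans Finset.card_le_two
    have h := hβ {(0, 0), (v, 0)} 2 (c2 _) (c2 _) (c2 _) fun i => c2 _
    simp only [Finset.image_insert, Finset.image_singleton, smul_zero, add_zero,
      Finset.card_pair hv.symm, Nat.cast_ofNat] at h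
    exact (Real.rpow_le_rpow_left_iff one_lt_two).1 ((Real.rpow_one 2).le.trans h)
  refine ⟨le_csInf ⟨_, up⟩ fun β hβ => ?_, csInf_le ⟨1, one⟩ up⟩
  have hD' : (0 : ℝ) < D := by exact_mod_cast h1
  obtain ⟨q, hq⟩ : ∃ q, q = (D - 2) / (2 * (k + 1) ^ 2) := ⟨_, rfl⟩
  have hk : 0 < (k + 1) ^ 2 := by positivity
  have q1 : 2 * (k + 1) ^ 2 * q ≤ D - 2 := hq ▸ Nat.mul_div_le _ _
  have q2 : D - 2 < 2 * (k + 1) ^ 2 * (q + 1) := hq ▸ Nat.lt_mul_div_succ _ (by omega)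
  rcases Nat.eq_zero_or_pos q with rfl | hq0
  · have h2 : (D : ℝ) ≤ 12 * ((k : ℝ) + 1) ^ 2 := by
      exact_mod_cast (by omega : D ≤ 12 * (k + 1) ^ 2)
    linarith [one β hβ, (one_le_div hD').2 h2]
  have q3 : 2 ≤ 2 * (k + 1) ^ 2 * q := by nlinarith
  obtain ⟨G, N, hN, g0, g1, g2, g3, g4⟩ := H60.Low.lower (V := V) (k := k) (D := D - 1) hq0
    (by omega) r s fun h => by have := hmin ⟨by omega, h⟩; omega
  have h2 := (Real.rpow_le_rpow_left_iff (by exact_mod_cast hN : (1 : ℝ) < N)).1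
    (g4.trans (hβ G N g0 g1 g2 g3))
  have h3 : (D : ℝ) ≤ 6 * ((k : ℝ) + 1) ^ 2 * q := by
    have : D ≤ 6 * (k + 1) ^ 2 * q := by nlinarith [Nat.sub_add_cancel (by omega : 2 ≤ D)]
    exact_mod_cast this
  have h4 : 2 / (q : ℝ) ≤ 12 * ((k : ℝ) + 1) ^ 2 / D := by
    rw [div_le_div_iff₀ (by exact_mod_cast hq0) hD']; linarith
  linarith

end Pool.Agent.Results.MP_4b405e_nt.RationalComplexity
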