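import Pool.Agent.MP_4b405e_nt.SK.All

namespace Pool.Agent.Results.MP_4b405e_nt.SparseSlopes

/-- The sum-difference inequality at scale `δ` with loss `δ ^ (-ε)`, for the slopes that are sums
of at most `m` distinct powers of `1 / 2`, each at least `δ`. -/
theorem result (n : ℕ) (ε : ℝ) (hε : 0 < ε) :
    ∃ (m : ℕ) (C : ℝ), ∀ (δ : ℝ) (R : Finset (EuclideanSpace ℝ (Fin n)))
      (a : EuclideanSpace ℝ (Fin n) → EuclideanSpace ℝ (Fin n)) (K : ℕ),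
      0 < δ → δ ≤ 1 → (∀ r ∈ R, ∀ i, r i ∈ Set.Icc (0 : ℝ) 1) →
      (∀ r ∈ R, ∀ r' ∈ R, r ≠ r' → δ ≤ dist r r') →
      (∀ J : Finset ℕ, J.card ≤ m → (∀ j ∈ J, 1 ≤ j ∧ δ ≤ (1 / 2 : ℝ) ^ j) →
        ∃ 𝒰 : Finset (Set (EuclideanSpace ℝ (Fin n))), 𝒰.card ≤ K ∧
          (∀ U ∈ 𝒰, ∀ x ∈ U, ∀ y ∈ U, dist x y ≤ δ) ∧
          ∀ r ∈ R, ∃ U ∈ 𝒰, a r + (∑ j ∈ J, (1 / 2 : ℝ) ^ j) • r ∈ U) →
      (R.card : ℝ) ≤ C * δ ^ (-ε) * K :=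
  Pool.Agent.MP_5168f5_an.QA.ship Pool.Agent.MP_5168f5_an.QA.noPGfAll n ε hε

end Pool.Agent.Results.MP_4b405e_nt.SparseSlopes
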